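import Pool.Agent.helper68.FY.Spec

/-!
# Project fy, row NPA: pairs with given Pluecker coordinates
-/

set_option autoImplicit false

namespace Pool.Agent.helper68.FY

open Finset

theorem NPA_gcd {ι : Type} [Fintype ι] (f : ι → ℤ) (hf : ∀ t : ℤ, (∀ i, t ∣ f i) → t.natAbs = 1)
    (s d : ℤ) (h : ∀ i, d ∣ s * f i) : d ∣ s := by
  have h1 : d ∣ Finset.univ.gcd (fun i => s * f i) := Finset.dvd_gcd fun i _ => h i
  rw [Finset.gcd_mul_left] at h1
  have h2 : (Finset.univ.gcd f).natAbs = 1 := hf _ fun i => Finset.gcd_dvd (Finset.mem_univ i)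
  have h3 : IsUnit (Finset.univ.gcd f) := Int.isUnit_iff_natAbs_eq.2 h2
  exact ((h3.dvd_mul_right).1 h1).trans (normalize_dvd_iff.2 dvd_rfl)

theorem NPA_le_nm (x : V4) (k : Fin 4) : (x k).natAbs ≤ nm x := by
  unfold nm
  exact Finset.le_sup (f := fun i => (x i).natAbs) (Finset.mem_univ k)

theorem NPA_exists (x : V4) : ∃ l, (x l).natAbs = nm x := by
  obtain ⟨l, _, hl⟩ := Finset.exists_mem_eq_sup (Finset.univ : Finset (Fin 4)) ⟨0, Finset.mem_univ _⟩
    (fun i => (x i).natAbs)
  exact ⟨l, hl.symm⟩

/-- content and primitive part -/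
theorem NPA_content (y : V4) (hy : y ≠ 0) :
    ∃ (k : ℕ) (e : V4), 1 ≤ k ∧ prim e ∧ ∀ a, y a = k * e a := by
  obtain ⟨g, hg, hg1⟩ := Finset.extract_gcd y (Finset.univ_nonempty (α := Fin 4))
  refine ⟨(Finset.univ.gcd y).natAbs, g, ?_, ?_, ?_⟩
  · rw [Nat.one_le_iff_ne_zero, Int.natAbs_ne_zero]
    intro h
    apply hy
    funext a
    rw [hg a (Finset.mem_univ a), h, zero_mul]
    rfl
  · intro t ht
    have h1 : t ∣ Finset.univ.gcd g := Finset.dvd_gcd fun i _ => ht i
    rw [hg1] at h1
    exact Int.isUnit_iff_natAbs_eq.1 (isUnit_of_dvd_one h1)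
  · intro a
    have h0 : (0 : ℤ) ≤ Finset.univ.gcd y :=
      Int.nonneg_of_normalize_eq_self Finset.normalize_gcd
    rw [Int.natAbs_of_nonneg h0]
    exact hg a (Finset.mem_univ a)

theorem NPA_quot {m z z' : ℤ} (hm : 0 < m) (h : z / m = z' / m) : |z - z'| < m := by
  have h1 := Int.emod_nonneg z hm.ne'
  have h2 := Int.emod_lt_of_pos z hm
  have h3 := Int.emod_nonneg z' hm.ne'
  have h4 := Int.emod_lt_of_pos z' hm
  have h5 := Int.emod_add_mul_ediv z m
  have h6 := Int.emod_add_mul_ediv z' m
  rw [h] at h5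
  rw [abs_lt]
  constructor <;> linarith

/-- **NPA**. -/
theorem NPA (hPLN : PLN_stmt) : NPA_stmt := by
  intro Q D P c i j hQ hc hP hD F hF
  classical
  rcases eq_or_ne (P i j) 0 with h0 | h0
  · rw [h0]
    simp
  set K := (P i j).natAbs with hK
  have hK1 : 1 ≤ K := Nat.one_le_iff_ne_zero.2 (Int.natAbs_ne_zero.2 h0)
  have hPg : ∀ t : ℤ, (∀ q : Fin 4 × Fin 4, t ∣ P q.1 q.2) → t.natAbs = 1 :=
    fun t ht => hP t fun k l => ht (k, l)
  have hgcdP : ∀ s d : ℤ, (∀ k l, d ∣ s * P k l) → d ∣ s := fun s d h =>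
    NPA_gcd (fun q : Fin 4 × Fin 4 => P q.1 q.2) hPg s d fun q => h q.1 q.2
  -- the second vector is not zero
  have hy0 : ∀ w ∈ F, w.2 ≠ 0 := by
    intro w hw h
    have h1 := (hF w hw).2.2 i j
    rw [h] at h1
    unfold pl at h1
    simp only [Pi.zero_apply, mul_zero, sub_zero] at h1
    rcases mul_eq_zero.1 h1.symm with h2 | h2
    · exact hc h2
    · exact h0 h2
  have hch : ∀ y : V4, ∃ (k : ℕ) (e : V4), y ≠ 0 → 1 ≤ k ∧ prim e ∧ ∀ a, y a = k * e a := by
    intro y
    by_cases hy : y = 0
    · exact ⟨0, 0, fun h => absurd hy h⟩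
    · obtain ⟨k, e, h⟩ := NPA_content y hy
      exact ⟨k, e, fun _ => h⟩
  choose kf ef hke using hch
  -- the lattice
  let Λ : AddSubgroup V4 :=
    { carrier := {z | ∀ a b d : Fin 4, z d * P a b - z b * P a d + z a * P b d = 0}
      add_mem' := by
        intro x y hx hy a b d
        have h1 := hx a b d
        have h2 := hy a b d
        simp only [Pi.add_apply]
        linear_combination h1 + h2
      zero_mem' := by
        intro a b d
        simp
      neg_mem' := by
        intro x hx a b d
        have h1 := hx a b d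
        simp only [Pi.neg_apply]
        linear_combination -h1 }
  have hΛm : ∀ z : V4, z ∈ Λ ↔ ∀ a b d : Fin 4, z d * P a b - z b * P a d + z a * P b d = 0 :=
    fun z => Iff.rfl
  have hyΛ : ∀ w ∈ F, ∀ (k : ℤ) (e : V4), k ≠ 0 → (∀ a, w.2 a = k * e a) → e ∈ Λ := by
    intro w hw k e hk he
    rw [hΛm]
    intro a b d
    obtain ⟨-, -, h3⟩ := hF w hw
    have e1 := h3 a b
    have e2 := h3 a d
    have e3 := h3 b d
    unfold pl at e1 e2 e3
    have h4 : c * (k * (e d * P a b - e b * P a d + e a * P b d)) = 0 := by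
      have f1 := he a
      have f2 := he b
      have f3 := he d
      linear_combination (-(k * e d)) * e1 + (k * e b) * e2 - (k * e a) * e3
        - (w.1 a * w.2 b - w.1 b * w.2 a) * f3
        + (w.1 a * w.2 d - w.1 d * w.2 a) * f2 - (w.1 b * w.2 d - w.1 d * w.2 b) * f1
    rcases mul_eq_zero.1 h4 with h5 | h5
    · exact absurd h5 hc
    · rcases mul_eq_zero.1 h5 with h6 | h6
      · exact absurd h6 hk
      · exact h6
  -- `F` is empty or we may fix a pair
  rcases F.eq_empty_or_nonempty with hFe | ⟨w₀, hw₀⟩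
  · rw [hFe]
    simp
  -- the Pluecker relation
  have hplu : ∀ a b : Fin 4, P i j * P a b = P i a * P j b - P i b * P j a := by
    intro a b
    obtain ⟨-, -, h3⟩ := hF w₀ hw₀
    have e1 := h3 i j
    have e2 := h3 a b
    have e3 := h3 i a
    have e4 := h3 j b
    have e5 := h3 i b
    have e6 := h3 j a
    have h4 : c ^ 2 * (P i j * P a b - (P i a * P j b - P i b * P j a)) = 0 := by
      have h5 : c ^ 2 * (P i j * P a b - (P i a * P j b - P i b * P j a)) =
          (c * P i j) * (c * P a b) - ((c * P i a) * (c * P j b) - (c * P i b) * (c * P j a)) := by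
        ring
      rw [h5, ← e1, ← e2, ← e3, ← e4, ← e5, ← e6]
      unfold pl
      ring
    rcases mul_eq_zero.1 h4 with h5 | h5
    · exact absurd (pow_eq_zero_iff (two_ne_zero) |>.1 h5) hc
    · linarith
  have hprop : ∀ z ∈ Λ, ∀ w ∈ Λ, ∀ a b : Fin 4, P i j * pl z w a b = pl z w i j * P a b := by
    intro z hz w hw a b
    have z1 := (hΛm z).1 hz i j a
    have z2 := (hΛm z).1 hz i j b
    have w1 := (hΛm w).1 hw i j a
    have w2 := (hΛm w).1 hw i j b
    have h1 : P i j * (P i j * pl z w a b - pl z w i j * P a b) = 0 := by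
      have h2 := hplu a b
      unfold pl
      -- `z a * Pij = z j * Pia - z i * Pja`
      have za : z a * P i j = z j * P i a - z i * P j a := by linarith
      have zb : z b * P i j = z j * P i b - z i * P j b := by linarith
      have wa : w a * P i j = w j * P i a - w i * P j a := by linarith
      have wb : w b * P i j = w j * P i b - w i * P j b := by linarith
      have h3 : P i j * (P i j * (z a * w b - z b * w a)) =
          (z a * P i j) * (w b * P i j) - (z b * P i j) * (w a * P i j) := by ring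
      rw [mul_sub, h3, za, zb, wa, wb]
      linear_combination (-(z i * w j - z j * w i)) * h2
    rcases mul_eq_zero.1 h1 with h2 | h2
    · exact absurd h2 h0
    · linarith
  have hΛpl : ∀ z ∈ Λ, ∀ w ∈ Λ, (∀ k l, pl z w k l = 0) ∨ (K : ℤ) ≤ |pl z w i j| := by
    intro z hz w hw
    rcases eq_or_ne (pl z w i j) 0 with h1 | h1
    · left
      intro k l
      have h2 := hprop z hz w hw k l
      rw [h1, zero_mul] at h2
      rcases mul_eq_zero.1 h2 with h3 | h3
      · exact absurd h3 h0
      · exact h3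
    · right
      have h2 : P i j ∣ pl z w i j := by
        apply hgcdP
        intro k l
        exact ⟨_, (hprop z hz w hw k l).symm⟩
      have h3 := Int.natAbs_le_of_dvd_ne_zero h2 h1
      rw [← Int.natCast_natAbs]
      exact_mod_cast h3
  -- the bound for each `k`
  have hmain : ∀ k ∈ c.natAbs.divisors, (F.filter fun w => kf w.2 = k).card * K ≤ 96 * Q ^ 2 := by
    intro k _
    set Fk := F.filter fun w => kf w.2 = k with hFk
    have hFkm : ∀ w ∈ Fk, w ∈ F ∧ kf w.2 = k := fun w hw => Finset.mem_filter.1 hw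
    rcases Fk.eq_empty_or_nonempty with hFe | ⟨w₁, hw₁⟩
    · rw [hFe]
      simp
    have hinfo : ∀ w ∈ Fk, 1 ≤ k ∧ prim (ef w.2) ∧ ∀ a, w.2 a = k * ef w.2 a := by
      intro w hw
      obtain ⟨h1, h2⟩ := hFkm w hw
      have h3 := hke w.2 (hy0 w h1)
      rw [h2] at h3
      exact h3
    have hk1 : 1 ≤ k := (hinfo w₁ hw₁).1
    have hk0 : (k : ℤ) ≠ 0 := by
      have : (0 : ℤ) < k := by exact_mod_cast hk1
      exact this.ne'
    set Ek := Fk.image fun w => ef w.2 with hEk
    have hEinfo : ∀ e ∈ Ek, e ∈ Λ ∧ prim e ∧ nm e ≤ Q / k := by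
      intro e he
      obtain ⟨w, hw, rfl⟩ := Finset.mem_image.1 he
      obtain ⟨-, h2, h3⟩ := hinfo w hw
      refine ⟨hyΛ w (hFkm w hw).1 k _ hk0 h3, h2, ?_⟩
      rw [Nat.le_div_iff_mul_le (by omega)]
      obtain ⟨l, hl⟩ := NPA_exists (ef w.2)
      rw [← hl]
      have h4 := NPA_le_nm w.2 l
      rw [h3 l, Int.natAbs_mul, Int.natAbs_natCast] at h4
      calc (ef w.2 l).natAbs * k = k * (ef w.2 l).natAbs := mul_comm _ _
        _ ≤ nm w.2 := h4
        _ ≤ Q := (hF w (hFkm w hw).1).2.1
    -- the fibres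
    have hfib : ∀ e ∈ Ek, (Fk.filter fun w => ef w.2 = e).card ≤ 2 * k + 1 := by
      intro e he
      obtain ⟨-, hpe, -⟩ := hEinfo e he
      obtain ⟨l, hl⟩ := NPA_exists e
      have hel : e l ≠ 0 := by
        intro h
        rw [h] at hl
        have h1 : ∀ a, e a = 0 := fun a => by
          have := NPA_le_nm e a
          rw [← hl] at this
          exact Int.natAbs_eq_zero.1 (Nat.le_zero.1 this)
        have h2 := hpe 0 (fun a => by rw [h1 a])
        simp at h2
      have help : 0 < |e l| := abs_pos.2 hel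
      have hcard : (Fk.filter fun w => ef w.2 = e).card ≤ (Finset.Icc (-(k : ℤ)) k).card := by
        refine Finset.card_le_card_of_injOn (fun w => w.1 l / |e l|) ?_ ?_
        · intro w hw
          obtain ⟨hwk, hwe⟩ := Finset.mem_filter.1 (Finset.mem_coe.1 hw)
          obtain ⟨-, -, h3⟩ := hinfo w hwk
          rw [hwe] at h3
          have h4 : |w.1 l| ≤ k * |e l| := by
            have h5 : (w.1 l).natAbs ≤ k * (e l).natAbs := by
              obtain ⟨l', hl'⟩ := NPA_exists w.2
              calc (w.1 l).natAbs ≤ nm w.1 := NPA_le_nm _ _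
                _ ≤ nm w.2 := (hF w (hFkm w hwk).1).1
                _ = (w.2 l').natAbs := hl'.symm
                _ = k * (e l').natAbs := by rw [h3 l', Int.natAbs_mul, Int.natAbs_natCast]
                _ ≤ k * (e l).natAbs := Nat.mul_le_mul_left _ (by rw [hl]; exact NPA_le_nm _ _)
            rw [← Int.natCast_natAbs, ← Int.natCast_natAbs]
            exact_mod_cast h5
          rw [abs_le] at h4
          refine Finset.mem_coe.2 (Finset.mem_Icc.2 ⟨?_, ?_⟩)
          · rw [Int.le_ediv_iff_mul_le help]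
            linarith [h4.1]
          · calc w.1 l / |e l| ≤ (k * |e l|) / |e l| := Int.ediv_le_ediv help h4.2
              _ = k := Int.mul_ediv_cancel _ help.ne'
        · intro w hw w' hw' heq
          obtain ⟨hwk, hwe⟩ := Finset.mem_filter.1 (Finset.mem_coe.1 hw)
          obtain ⟨hwk', hwe'⟩ := Finset.mem_filter.1 (Finset.mem_coe.1 hw')
          obtain ⟨-, -, h3⟩ := hinfo w hwk
          obtain ⟨-, -, h3'⟩ := hinfo w' hwk'
          rw [hwe] at h3
          rw [hwe'] at h3'
          have hlt := NPA_quot help (show w.1 l / |e l| = w'.1 l / |e l| from heq)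
          have hpl := (hF w (hFkm w hwk).1).2.2
          have hpl' := (hF w' (hFkm w' hwk').1).2.2
          -- `x - x'` is proportional to `e`
          have hx : ∀ a, (w.1 a - w'.1 a) * e l = (w.1 l - w'.1 l) * e a := by
            intro a
            have g1 := hpl a l
            have g2 := hpl' a l
            unfold pl at g1 g2
            have g3 : (k : ℤ) * ((w.1 a - w'.1 a) * e l - (w.1 l - w'.1 l) * e a) = 0 := by
              rw [h3 l, h3 a] at g1
              rw [h3' l, h3' a] at g2
              linear_combination g1 - g2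
            rcases mul_eq_zero.1 g3 with g4 | g4
            · exact absurd g4 hk0
            · linarith
          have hdv : e l ∣ w.1 l - w'.1 l :=
            NPA_gcd e hpe _ _ fun a => ⟨w.1 a - w'.1 a, by rw [← hx a]; ring⟩
          have hzero : w.1 l - w'.1 l = 0 := by
            by_contra hne
            have g1 := Int.natAbs_le_of_dvd_ne_zero hdv hne
            have g2 : |e l| ≤ |w.1 l - w'.1 l| := by
              rw [← Int.natCast_natAbs, ← Int.natCast_natAbs]
              exact_mod_cast g1
            linarith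
          refine Prod.ext ?_ ?_
          · funext a
            have g1 := hx a
            rw [hzero, zero_mul] at g1
            rcases mul_eq_zero.1 g1 with g2 | g2
            · linarith
            · exact absurd g2 hel
          · funext a
            rw [h3 a, h3' a]
      rw [Int.card_Icc] at hcard
      omega
    have hFkcard : Fk.card ≤ Ek.card * (2 * k + 1) := by
      rw [Finset.card_eq_sum_card_image (fun w => ef w.2) Fk]
      calc ∑ e ∈ Fk.image (fun w => ef w.2), (Fk.filter fun w => ef w.2 = e).card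
          ≤ ∑ _e ∈ Fk.image (fun w => ef w.2), (2 * k + 1) := Finset.sum_le_sum hfib
        _ = Ek.card * (2 * k + 1) := by rw [Finset.sum_const, smul_eq_mul]
    have hdivQ : Q / k * k ≤ Q := Nat.div_mul_le_self _ _
    have hkK : k * K ≤ 2 * Q ^ 2 := by
      obtain ⟨hw₁F, -⟩ := hFkm w₁ hw₁
      obtain ⟨g1, g2, g3⟩ := hF w₁ hw₁F
      obtain ⟨-, -, h3⟩ := hinfo w₁ hw₁
      have hkc : (k : ℤ) ∣ c := by
        apply hgcdP
        intro a b
        rw [← g3 a b]
        unfold pl
        rw [h3 a, h3 b]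
        exact ⟨w₁.1 a * ef w₁.2 b - w₁.1 b * ef w₁.2 a, by ring⟩
      have hkc' : k ≤ c.natAbs := by
        have := Int.natAbs_le_of_dvd_ne_zero hkc hc
        rwa [Int.natAbs_natCast] at this
      have hbd : (c * P i j).natAbs ≤ 2 * Q ^ 2 := by
        rw [← g3 i j]
        unfold pl
        have a1 := (NPA_le_nm w₁.1 i).trans (g1.trans g2)
        have a2 := (NPA_le_nm w₁.1 j).trans (g1.trans g2)
        have a3 := (NPA_le_nm w₁.2 i).trans g2
        have a4 := (NPA_le_nm w₁.2 j).trans g2
        calc (w₁.1 i * w₁.2 j - w₁.1 j * w₁.2 i).natAbs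
            ≤ (w₁.1 i * w₁.2 j).natAbs + (w₁.1 j * w₁.2 i).natAbs := Int.natAbs_sub_le _ _
          _ ≤ Q * Q + Q * Q := by
              rw [Int.natAbs_mul, Int.natAbs_mul]
              exact Nat.add_le_add (Nat.mul_le_mul a1 a4) (Nat.mul_le_mul a2 a3)
          _ = 2 * Q ^ 2 := by ring
      rw [Int.natAbs_mul] at hbd
      exact (Nat.mul_le_mul_right _ hkc').trans hbd
    by_cases hcase : ∃ x ∈ Ek, ∃ y ∈ Ek, pl x y i j ≠ 0
    · have h1 := hPLN Λ i j K (Q / k) hK1 hΛpl Ek
        (fun x hx => ⟨(hEinfo x hx).1, (hEinfo x hx).2.2⟩) hcase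
      calc Fk.card * K ≤ (Ek.card * (2 * k + 1)) * K := Nat.mul_le_mul_right _ hFkcard
        _ ≤ (Ek.card * (3 * k)) * K :=
            Nat.mul_le_mul_right _ (Nat.mul_le_mul_left _ (by omega))
        _ = (3 * k) * (Ek.card * K) := by ring
        _ ≤ (3 * k) * (32 * (Q / k) ^ 2) := Nat.mul_le_mul_left _ h1
        _ = 96 * ((Q / k * k) * (Q / k)) := by ring
        _ ≤ 96 * (Q * Q) := Nat.mul_le_mul_left _ (Nat.mul_le_mul hdivQ (Nat.div_le_self _ _))
        _ = 96 * Q ^ 2 := by ring
    · push Not at hcase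
      -- at most two elements
      have hEk2 : Ek.card ≤ 2 := by
        rcases Ek.eq_empty_or_nonempty with hE0 | ⟨e₀, he₀⟩
        · rw [hE0]
          simp
        have hsub : Ek ⊆ {e₀, -e₀} := by
          intro e he
          obtain ⟨e1, e2, -⟩ := hEinfo e he
          obtain ⟨f1, f2, -⟩ := hEinfo e₀ he₀
          have hall : ∀ a b, pl e e₀ a b = 0 := by
            rcases hΛpl e e1 e₀ f1 with h1 | h1
            · exact h1
            · rw [hcase e he e₀ he₀, abs_zero] at h1
              have : (1 : ℤ) ≤ K := by exact_mod_cast hK1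
              linarith
          obtain ⟨l, hl⟩ := NPA_exists e₀
          have hel : e₀ l ≠ 0 := by
            intro h
            rw [h] at hl
            have h1 : ∀ a, e₀ a = 0 := fun a => by
              have := NPA_le_nm e₀ a
              rw [← hl] at this
              exact Int.natAbs_eq_zero.1 (Nat.le_zero.1 this)
            have h2 := f2 0 (fun a => by rw [h1 a])
            simp at h2
          have hx : ∀ a, e a * e₀ l = e l * e₀ a := by
            intro a
            have g1 := hall a l
            unfold pl at g1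
            linarith
          have hdv : e₀ l ∣ e l := NPA_gcd e₀ f2 _ _ fun a => ⟨e a, by rw [← hx a]; ring⟩
          obtain ⟨m, hm⟩ := hdv
          have hem : ∀ a, e a = m * e₀ a := by
            intro a
            have g1 := hx a
            rw [hm] at g1
            have g2 : e₀ l * (e a - m * e₀ a) = 0 := by linear_combination g1
            rcases mul_eq_zero.1 g2 with g3 | g3
            · exact absurd g3 hel
            · linarith
          have hm1 := e2 m (fun a => ⟨e₀ a, hem a⟩)
          rw [Finset.mem_insert, Finset.mem_singleton]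
          rcases Int.natAbs_eq m with h1 | h1
          · left
            funext a
            rw [hem a, h1, hm1]
            simp
          · right
            funext a
            rw [hem a, h1, hm1]
            simp
        exact (Finset.card_le_card hsub).trans Finset.card_le_two
      calc Fk.card * K ≤ (Ek.card * (2 * k + 1)) * K := Nat.mul_le_mul_right _ hFkcard
        _ ≤ (2 * (3 * k)) * K :=
            Nat.mul_le_mul_right _ (Nat.mul_le_mul hEk2 (by omega))
        _ = 6 * (k * K) := by ring
        _ ≤ 6 * (2 * Q ^ 2) := Nat.mul_le_mul_left _ hkK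
        _ ≤ 96 * Q ^ 2 := by omega
  -- summation over `k`
  have hmaps : ∀ w ∈ F, kf w.2 ∈ c.natAbs.divisors := by
    intro w hw
    obtain ⟨g1, g2, g3⟩ := hF w hw
    obtain ⟨h1, h2, h3⟩ := hke w.2 (hy0 w hw)
    rw [Nat.mem_divisors]
    refine ⟨?_, Int.natAbs_ne_zero.2 hc⟩
    have hkc : (kf w.2 : ℤ) ∣ c := by
      apply hgcdP
      intro a b
      rw [← g3 a b]
      unfold pl
      rw [h3 a, h3 b]
      exact ⟨w.1 a * ef w.2 b - w.1 b * ef w.2 a, by ring⟩
    exact Int.natCast_dvd.1 hkc
  rw [Finset.card_eq_sum_card_fiberwise hmaps, Finset.sum_mul]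
  calc ∑ k ∈ c.natAbs.divisors, (F.filter fun w => kf w.2 = k).card * K
      ≤ ∑ _k ∈ c.natAbs.divisors, 96 * Q ^ 2 := Finset.sum_le_sum hmain
    _ = c.natAbs.divisors.card * (96 * Q ^ 2) := by rw [Finset.sum_const, smul_eq_mul]
    _ ≤ D * (96 * Q ^ 2) := Nat.mul_le_mul_right _ hD
    _ = 96 * D * Q ^ 2 := by ring

end Pool.Agent.helper68.FY
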